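import Mathlib

/-!
# MC-SUP (helper574): an inequality of Bombieri-Halasz type for integrals
-/

set_option autoImplicit false

namespace Pool.Agent.Y574.MC

open MeasureTheory Finset ComplexConjugate

theorem sqrt_sum (n : ℕ) : ∑ j ∈ range n, 1 / Real.sqrt ((j : ℝ) + 1) ≤ 2 * Real.sqrt n := by
  induction n with
  | zero => simp
  | succ n ih =>
    rw [Finset.sum_range_succ]
    have h1 : 0 < Real.sqrt ((n : ℝ) + 1) := Real.sqrt_pos.2 (by positivity)
    have h2 : Real.sqrt n ≤ Real.sqrt ((n : ℝ) + 1) := Real.sqrt_le_sqrt (by linarith)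
    have h3 : Real.sqrt ((n : ℝ) + 1) * Real.sqrt ((n : ℝ) + 1) = n + 1 := Real.mul_self_sqrt (by positivity)
    have h4 : Real.sqrt n * Real.sqrt n = n := Real.mul_self_sqrt (by positivity)
    have h0 : 0 ≤ Real.sqrt n := Real.sqrt_nonneg _
    have h5 : 1 / Real.sqrt ((n : ℝ) + 1) ≤ 2 * (Real.sqrt ((n : ℝ) + 1) - Real.sqrt n) := by
      rw [div_le_iff₀ h1]
      nlinarith
    push_cast
    linarith

theorem row_sum (V v : ℕ) (hv : v < V) (a c : ℝ) (hc : 0 ≤ c) :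
    ∑ v' ∈ range V, (if v = v' then a else c / Real.sqrt |(v : ℝ) - v'|) ≤ a + 4 * c * Real.sqrt V := by
  rw [Finset.range_eq_Ico, ← Finset.sum_Ico_consecutive _ (Nat.zero_le v) hv.le,
    Finset.sum_eq_sum_Ico_succ_bot hv, if_pos rfl]
  have h1 : ∑ v' ∈ Ico 0 v, (if v = v' then a else c / Real.sqrt |(v : ℝ) - v'|) ≤ 2 * c * Real.sqrt V := by
    rw [← Finset.range_eq_Ico]
    have e : ∑ v' ∈ range v, (if v = v' then a else c / Real.sqrt |(v : ℝ) - v'|) =
        ∑ v' ∈ range v, c * (1 / Real.sqrt (((v - 1 - v' : ℕ) : ℝ) + 1)) := by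
      refine Finset.sum_congr rfl fun j hj => ?_
      rw [Finset.mem_range] at hj
      have e1 : ((v - 1 - j : ℕ) : ℝ) + 1 = v - j := by
        have : v - 1 - j + 1 + j = v := by omega
        have h2 : (((v - 1 - j + 1 + j : ℕ)) : ℝ) = v := by rw [this]
        push_cast at h2
        linarith
      have hj' : (j : ℝ) < v := by exact_mod_cast hj
      rw [if_neg (by omega), abs_of_pos (by linarith), e1]
      ring
    rw [e, ← Finset.mul_sum, Finset.sum_range_reflect (fun j => 1 / Real.sqrt ((j : ℝ) + 1)) v]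
    have h2 := sqrt_sum v
    have h3 : Real.sqrt v ≤ Real.sqrt V := Real.sqrt_le_sqrt (by exact_mod_cast hv.le)
    calc c * ∑ j ∈ range v, 1 / Real.sqrt ((j : ℝ) + 1) ≤ c * (2 * Real.sqrt V) :=
          mul_le_mul_of_nonneg_left (h2.trans (by linarith)) hc
      _ = _ := by ring
  have h2 : ∑ v' ∈ Ico (v + 1) V, (if v = v' then a else c / Real.sqrt |(v : ℝ) - v'|) ≤ 2 * c * Real.sqrt V := by
    rw [Finset.sum_Ico_eq_sum_range]
    have e : ∑ j ∈ range (V - (v + 1)), (if v = v + 1 + j then a else c / Real.sqrt |(v : ℝ) - ((v + 1 + j : ℕ) : ℝ)|) =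
        ∑ j ∈ range (V - (v + 1)), c * (1 / Real.sqrt ((j : ℝ) + 1)) := by
      refine Finset.sum_congr rfl fun j _ => ?_
      have e1 : (v : ℝ) - ((v + 1 + j : ℕ) : ℝ) = -((j : ℝ) + 1) := by push_cast; ring
      rw [if_neg (by omega), e1, abs_neg, abs_of_pos (by positivity)]
      ring
    rw [e, ← Finset.mul_sum]
    have h2 := sqrt_sum (V - (v + 1))
    have h3 : Real.sqrt ((V - (v + 1) : ℕ) : ℝ) ≤ Real.sqrt V :=
      Real.sqrt_le_sqrt (by exact_mod_cast Nat.sub_le _ _)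
    calc c * ∑ j ∈ range (V - (v + 1)), 1 / Real.sqrt ((j : ℝ) + 1) ≤ c * (2 * Real.sqrt V) :=
          mul_le_mul_of_nonneg_left (h2.trans (by linarith)) hc
      _ = _ := by ring
  linarith

/-- Bombieri-Halasz -/
theorem hal (ν : Measure ℝ) [IsFiniteMeasure ν] (V : ℕ) (f : ℝ → ℂ) (hf : Measurable f)
    (hf1 : ∀ z, ‖f z‖ ≤ 1) (ψ : ℕ → ℝ → ℂ) (hψ : ∀ v, Measurable (ψ v)) (B : ℝ) (hB : ∀ v z, ‖ψ v z‖ ≤ B)
    (G : ℕ → ℕ → ℝ) (hG : ∀ v ∈ range V, ∀ v' ∈ range V, ‖∫ z, ψ v z * conj (ψ v' z) ∂ν‖ ≤ G v v')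
    (hsym : ∀ v v', G v v' = G v' v) (R : ℝ) (hR : 0 < R) (hrow : ∀ v ∈ range V, ∑ v' ∈ range V, G v v' ≤ R) :
    ∑ v ∈ range V, ‖∫ z, f z * ψ v z ∂ν‖ ^ 2 ≤ R * ν.real Set.univ := by
  have hB0 : 0 ≤ B := (norm_nonneg _).trans (hB 0 0)
  obtain ⟨I, hI⟩ : ∃ I : ℕ → ℂ, ∀ v, I v = ∫ z, f z * ψ v z ∂ν := ⟨_, fun _ => rfl⟩
  obtain ⟨S, hS⟩ : ∃ S : ℝ, S = ∑ v ∈ range V, ‖I v‖ ^ 2 := ⟨_, rfl⟩
  have hS0 : 0 ≤ S := by rw [hS]; exact Finset.sum_nonneg fun v _ => by positivity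
  obtain ⟨g, hg⟩ : ∃ g : ℝ → ℂ, ∀ z, g z = ∑ v ∈ range V, conj (I v) * ψ v z := ⟨_, fun _ => rfl⟩
  have hgm : Measurable g := by
    have : g = fun z => ∑ v ∈ range V, conj (I v) * ψ v z := funext hg
    rw [this]
    exact Finset.measurable_sum _ fun v _ => (hψ v).const_mul _
  have hgB : ∀ z, ‖g z‖ ≤ ∑ v ∈ range V, ‖I v‖ * B := by
    intro z
    rw [hg]
    refine (norm_sum_le _ _).trans (Finset.sum_le_sum fun v _ => ?_)
    rw [norm_mul, RCLike.norm_conj]
    exact mul_le_mul_of_nonneg_left (hB v z) (norm_nonneg _)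
  obtain ⟨B', hB'⟩ : ∃ B' : ℝ, B' = ∑ v ∈ range V, ‖I v‖ * B := ⟨_, rfl⟩
  rw [← hB'] at hgB
  have hint : ∀ v, Integrable (fun z => f z * ψ v z) ν := fun v =>
    Integrable.of_bound (hf.mul (hψ v)).aestronglyMeasurable B (Filter.Eventually.of_forall fun z => by
      rw [norm_mul]
      calc ‖f z‖ * ‖ψ v z‖ ≤ 1 * B := mul_le_mul (hf1 z) (hB v z) (norm_nonneg _) zero_le_one
        _ = B := one_mul B)
  have hintψ : ∀ v v', Integrable (fun z => ψ v z * conj (ψ v' z)) ν := fun v v' =>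
    Integrable.of_bound ((hψ v).mul (Complex.continuous_conj.measurable.comp (hψ v'))).aestronglyMeasurable
      (B * B) (Filter.Eventually.of_forall fun z => by
      rw [norm_mul, RCLike.norm_conj]
      exact mul_le_mul (hB v z) (hB v' z) (norm_nonneg _) hB0)
  have hg2 : Integrable (fun z => ‖g z‖ ^ 2) ν :=
    Integrable.of_bound (hgm.norm.pow_const 2).aestronglyMeasurable (B' ^ 2) (Filter.Eventually.of_forall fun z => by
      rw [Real.norm_of_nonneg (by positivity)]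
      exact pow_le_pow_left₀ (norm_nonneg _) (hgB z) 2)
  have hg1 : Integrable (fun z => ‖g z‖) ν :=
    Integrable.of_bound hgm.norm.aestronglyMeasurable B' (Filter.Eventually.of_forall fun z => by
      rw [norm_norm]; exact hgB z)
  -- first step
  have e1 : ∫ z, f z * g z ∂ν = (S : ℂ) := by
    have h1 : ∀ z, f z * g z = ∑ v ∈ range V, conj (I v) * (f z * ψ v z) := by
      intro z
      rw [hg, Finset.mul_sum]
      exact Finset.sum_congr rfl fun v _ => by ring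
    simp only [h1]
    rw [integral_finsetSum _ fun v _ => (hint v).const_mul _, hS]
    push_cast
    refine Finset.sum_congr rfl fun v _ => ?_
    rw [integral_const_mul, ← hI, ← Complex.conj_mul']
  have e2 : S ≤ ∫ z, ‖g z‖ ∂ν := by
    have h1 : ‖∫ z, f z * g z ∂ν‖ = S := by rw [e1, Complex.norm_real, Real.norm_of_nonneg hS0]
    rw [← h1]
    refine norm_integral_le_of_norm_le hg1 (Filter.Eventually.of_forall fun z => ?_)
    rw [norm_mul]
    calc ‖f z‖ * ‖g z‖ ≤ 1 * ‖g z‖ := mul_le_mul_of_nonneg_right (hf1 z) (norm_nonneg _)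
      _ = _ := one_mul _
  have e3 : ∫ z, ‖g z‖ ∂ν ≤ (1 / 2) * (R * ν.real Set.univ + (1 / R) * ∫ z, ‖g z‖ ^ 2 ∂ν) := by
    have h1 : ∫ z, ‖g z‖ ∂ν ≤ ∫ z, ((1 / 2) * (R + (1 / R) * ‖g z‖ ^ 2)) ∂ν := by
      refine integral_mono hg1 (((integrable_const R).add (hg2.const_mul (1 / R))).const_mul (1 / 2)) fun z => ?_
      have h2 : 0 ≤ (‖g z‖ - R) ^ 2 := sq_nonneg _
      have h3 : (1 / 2) * (R + (1 / R) * ‖g z‖ ^ 2) - ‖g z‖ = (1 / (2 * R)) * (‖g z‖ - R) ^ 2 := by
        field_simp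
        ring
      have h4 : 0 ≤ (1 / (2 * R)) * (‖g z‖ - R) ^ 2 := by positivity
      show ‖g z‖ ≤ (1 / 2) * (R + (1 / R) * ‖g z‖ ^ 2)
      linarith
    rw [integral_const_mul, integral_add (integrable_const R) (hg2.const_mul (1 / R)), integral_const,
      integral_const_mul, smul_eq_mul, mul_comm (ν.real Set.univ)] at h1
    exact h1
  have e4 : ∫ z, ‖g z‖ ^ 2 ∂ν ≤ R * S := by
    have h1 : ((∫ z, ‖g z‖ ^ 2 ∂ν : ℝ) : ℂ) = ∑ v ∈ range V, ∑ v' ∈ range V,
        conj (I v) * I v' * ∫ z, ψ v z * conj (ψ v' z) ∂ν := by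
      rw [← integral_complex_ofReal]
      have h2 : ∀ z, (((‖g z‖ ^ 2 : ℝ)) : ℂ) = ∑ v ∈ range V, ∑ v' ∈ range V,
          conj (I v) * I v' * (ψ v z * conj (ψ v' z)) := by
        intro z
        push_cast
        rw [← Complex.mul_conj', hg, map_sum, Finset.sum_mul_sum]
        refine Finset.sum_congr rfl fun v _ => Finset.sum_congr rfl fun v' _ => ?_
        rw [map_mul, Complex.conj_conj]
        ring
      simp only [h2]
      rw [integral_finsetSum _ fun v _ => integrable_finsetSum _ fun v' _ => (hintψ v v').const_mul _]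
      refine Finset.sum_congr rfl fun v _ => ?_
      rw [integral_finsetSum _ fun v' _ => (hintψ v v').const_mul _]
      refine Finset.sum_congr rfl fun v' _ => ?_
      rw [integral_const_mul]
    have h2 : ∫ z, ‖g z‖ ^ 2 ∂ν = ‖((∫ z, ‖g z‖ ^ 2 ∂ν : ℝ) : ℂ)‖ := by
      rw [Complex.norm_real, Real.norm_of_nonneg (integral_nonneg fun z => by positivity)]
    rw [h2, h1]
    have hG0 : ∀ v ∈ range V, ∀ v' ∈ range V, 0 ≤ G v v' := fun v hv v' hv' =>
      (norm_nonneg _).trans (hG v hv v' hv')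
    calc ‖∑ v ∈ range V, ∑ v' ∈ range V, conj (I v) * I v' * ∫ z, ψ v z * conj (ψ v' z) ∂ν‖
        ≤ ∑ v ∈ range V, ∑ v' ∈ range V, ((‖I v‖ ^ 2 + ‖I v'‖ ^ 2) / 2) * G v v' := by
          refine (norm_sum_le _ _).trans (Finset.sum_le_sum fun v hv => ?_)
          refine (norm_sum_le _ _).trans (Finset.sum_le_sum fun v' hv' => ?_)
          rw [norm_mul, norm_mul, RCLike.norm_conj]
          refine mul_le_mul ?_ (hG v hv v' hv') (norm_nonneg _) (by positivity)
          nlinarith [sq_nonneg (‖I v‖ - ‖I v'‖)]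
      _ = ∑ v ∈ range V, ‖I v‖ ^ 2 * ∑ v' ∈ range V, G v v' := by
          have h3 : ∑ v ∈ range V, ∑ v' ∈ range V, ((‖I v‖ ^ 2 + ‖I v'‖ ^ 2) / 2) * G v v' =
              (1 / 2) * ∑ v ∈ range V, ∑ v' ∈ range V, ‖I v‖ ^ 2 * G v v' +
              (1 / 2) * ∑ v ∈ range V, ∑ v' ∈ range V, ‖I v'‖ ^ 2 * G v v' := by
            rw [Finset.mul_sum, Finset.mul_sum, ← Finset.sum_add_distrib]
            refine Finset.sum_congr rfl fun v _ => ?_
            rw [Finset.mul_sum, Finset.mul_sum, ← Finset.sum_add_distrib]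
            exact Finset.sum_congr rfl fun v' _ => by ring
          have h4 : ∑ v ∈ range V, ∑ v' ∈ range V, ‖I v'‖ ^ 2 * G v v' =
              ∑ v ∈ range V, ∑ v' ∈ range V, ‖I v‖ ^ 2 * G v v' := by
            rw [Finset.sum_comm]
            exact Finset.sum_congr rfl fun v _ => Finset.sum_congr rfl fun v' _ => by rw [hsym]
          rw [h3, h4]
          simp only [Finset.mul_sum]
          rw [← Finset.sum_add_distrib]
          refine Finset.sum_congr rfl fun v _ => ?_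
          rw [← Finset.sum_add_distrib]
          exact Finset.sum_congr rfl fun v' _ => by ring
      _ ≤ ∑ v ∈ range V, ‖I v‖ ^ 2 * R := Finset.sum_le_sum fun v hv =>
          mul_le_mul_of_nonneg_left (hrow v hv) (by positivity)
      _ = R * S := by rw [← Finset.sum_mul, ← hS, mul_comm]
  have e5 : (1 / R) * ∫ z, ‖g z‖ ^ 2 ∂ν ≤ S := by
    calc (1 / R) * ∫ z, ‖g z‖ ^ 2 ∂ν ≤ (1 / R) * (R * S) := mul_le_mul_of_nonneg_left e4 (by positivity)
      _ = S := by field_simp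
  have e6 : ∑ v ∈ range V, ‖∫ z, f z * ψ v z ∂ν‖ ^ 2 = S := by
    rw [hS]
    exact Finset.sum_congr rfl fun v _ => by rw [hI]
  rw [e6]
  linarith

end Pool.Agent.Y574.MC
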