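import Pool.Agent.Y957.MC.Spec
import Pool.Agent.Y574.MC.Hal

/-!
# MC-SUP (helper574): the kernels
-/

set_option autoImplicit false

namespace Pool.Agent.Y574.MC

open MeasureTheory Finset ComplexConjugate Pool.Agent.Y957.MC

/-- the unrestricted kernel -/
noncomputable def kr (Λ M t v z : ℝ) : ℂ :=
  ((1 / (Λ * (z - v)) : ℝ) : ℂ) * Complex.exp (((-(t * Real.log ((z - v) / M)) : ℝ) : ℂ) * Complex.I)

/-- the kernel -/
noncomputable def ps (Λ M t v : ℝ) : ℝ → ℂ :=
  (Set.Ioc (M + v) (Real.exp Λ * M + v)).indicator (kr Λ M t v)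

theorem kr_meas (Λ M t v : ℝ) : Measurable (kr Λ M t v) := by
  unfold kr
  fun_prop

theorem ps_meas (Λ M t v : ℝ) : Measurable (ps Λ M t v) :=
  (kr_meas Λ M t v).indicator measurableSet_Ioc

theorem kr_norm {Λ M t v z : ℝ} (hΛ : 1 ≤ Λ) (hM : 0 < M) (hz : M + v < z) : ‖kr Λ M t v z‖ ≤ 1 / M := by
  unfold kr
  rw [norm_mul, Complex.norm_exp_ofReal_mul_I, mul_one, Complex.norm_real, Real.norm_eq_abs]
  have h1 : 0 < z - v := by linarith
  rw [abs_of_pos (by positivity)]
  apply one_div_le_one_div_of_le hM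
  nlinarith

theorem ps_norm {Λ M t v : ℝ} (hΛ : 1 ≤ Λ) (hM : 0 < M) (z : ℝ) : ‖ps Λ M t v z‖ ≤ 1 / M := by
  unfold ps
  by_cases hz : z ∈ Set.Ioc (M + v) (Real.exp Λ * M + v)
  · rw [Set.indicator_of_mem hz]
    exact kr_norm hΛ hM hz.1
  · rw [Set.indicator_of_notMem hz, norm_zero]
    positivity

/-- the change of variables -/
theorem cv {Λ M v : ℝ} (hΛ : 0 < Λ) (hM : 0 < M) (k : ℤ) (F : ℝ → ℂ) :
    (1 / (Λ : ℂ)) * ∫ s in (0 : ℝ)..Λ, F (M * Real.exp s + v) *
      Complex.exp (-((2 * Real.pi * k / Λ * s : ℝ) : ℂ) * Complex.I) =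
    ∫ z in Set.Ioc (M + v) (Real.exp Λ * M + v), F z * kr Λ M (2 * Real.pi * k / Λ) v z := by
  have himg : (fun s => M * Real.exp s + v) '' Set.Ioc 0 Λ = Set.Ioc (M + v) (Real.exp Λ * M + v) := by
    ext z
    constructor
    · rintro ⟨s, hs, rfl⟩
      have h1 : 1 < Real.exp s := by rw [← Real.exp_zero]; exact Real.exp_lt_exp.2 hs.1
      have h2 : Real.exp s ≤ Real.exp Λ := Real.exp_le_exp.2 hs.2
      constructor
      · show M + v < M * Real.exp s + v
        nlinarith
      · show M * Real.exp s + v ≤ Real.exp Λ * M + v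
        nlinarith
    · intro hz
      have h0 : 0 < (z - v) / M := div_pos (by linarith [hz.1]) hM
      have h1 : 1 < (z - v) / M := by rw [lt_div_iff₀ hM]; linarith [hz.1]
      have h2 : (z - v) / M ≤ Real.exp Λ := by rw [div_le_iff₀ hM]; linarith [hz.2]
      refine ⟨Real.log ((z - v) / M), ⟨Real.log_pos h1, ?_⟩, ?_⟩
      · rw [← Real.log_exp Λ]
        exact Real.log_le_log h0 h2
      · show M * Real.exp (Real.log ((z - v) / M)) + v = z
        rw [Real.exp_log h0]
        field_simp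
        ring
  rw [← himg, integral_image_eq_integral_abs_deriv_smul (f' := fun s => M * Real.exp s) measurableSet_Ioc
    (fun s _ => (((Real.hasDerivAt_exp s).const_mul M).add_const v).hasDerivWithinAt)
    (fun a _ b _ h => by
      have h1 : M * Real.exp a + v = M * Real.exp b + v := h
      have h2 : M * Real.exp a = M * Real.exp b := by linarith
      exact Real.exp_injective (mul_left_cancel₀ hM.ne' h2)), intervalIntegral.integral_of_le hΛ.le,
    ← integral_const_mul]
  refine integral_congr_ae (Filter.Eventually.of_forall fun s => ?_)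
  simp only
  have hes := Real.exp_pos s
  have h1 : M * Real.exp s + v - v = M * Real.exp s := by ring
  have h2 : M * Real.exp s / M = Real.exp s := by field_simp
  unfold kr
  rw [h1, h2, Real.log_exp, abs_of_pos (by positivity), Complex.real_smul]
  have h3 : (((1 / (Λ * (M * Real.exp s)) : ℝ)) : ℂ) = 1 / ((Λ : ℂ) * (((M * Real.exp s : ℝ)) : ℂ)) := by
    push_cast; ring
  have h4 : (((M * Real.exp s : ℝ)) : ℂ) ≠ 0 := by
    rw [Complex.ofReal_ne_zero]; positivity
  have h5 : (Λ : ℂ) ≠ 0 := by rw [Complex.ofReal_ne_zero]; exact hΛ.ne'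
  rw [h3, Complex.ofReal_neg]
  field_simp

/-- the kernels as functions on a long interval -/
theorem cv2 {Λ M v V : ℝ} (hv : 0 ≤ v) (hV : v ≤ V) (t : ℝ) (F : ℝ → ℂ) :
    ∫ z in Set.Ioc (M + v) (Real.exp Λ * M + v), F z * kr Λ M t v z =
      ∫ z, F z * ps Λ M t v z ∂(volume.restrict (Set.Ioc M (Real.exp Λ * M + V))) := by
  have h1 : ∀ z, F z * ps Λ M t v z =
      (Set.Ioc (M + v) (Real.exp Λ * M + v)).indicator (fun z => F z * kr Λ M t v z) z := by
    intro z
    unfold ps
    by_cases hz : z ∈ Set.Ioc (M + v) (Real.exp Λ * M + v)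
    · rw [Set.indicator_of_mem hz, Set.indicator_of_mem hz]
    · rw [Set.indicator_of_notMem hz, Set.indicator_of_notMem hz, mul_zero]
  simp only [h1]
  rw [setIntegral_indicator measurableSet_Ioc, Set.inter_eq_right.2]
  intro z hz
  exact ⟨by linarith [hz.1], by linarith [hz.2]⟩

/-- the inner products of different kernels -/
theorem inn (hosc : S_OSC) {Λ : ℝ} (hΛ : 1 ≤ Λ) : ∃ C : ℝ, 0 < C ∧ ∀ M T v v' V t t' : ℝ, 1 ≤ M → 0 < T →
    T ≤ |t| → T ≤ |t'| → 0 ≤ v → 0 ≤ v' → v ≤ V → v' ≤ V → v ≠ v' →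
    ‖∫ z, ps Λ M t v z * conj (ps Λ M t' v' z) ∂(volume.restrict (Set.Ioc M (Real.exp Λ * M + V)))‖ ≤
      C / Real.sqrt (M * T * |v - v'|) := by
  have hb : 1 ≤ Real.exp Λ := Real.one_le_exp (by linarith)
  obtain ⟨C, hC, hosc⟩ := hosc (Real.exp Λ) hb
  refine ⟨C, hC, ?_⟩
  intro M T v v' V t t' hM hT ht ht' hv hv' hV hV' hne
  have hM0 : 0 < M := by linarith
  have hrhs : 0 ≤ C / Real.sqrt (M * T * |v - v'|) := by positivity
  have h1 : ∀ z, ps Λ M t v z * conj (ps Λ M t' v' z) =
      (Set.Ioc (max (M + v) (M + v')) (min (Real.exp Λ * M + v) (Real.exp Λ * M + v'))).indicator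
        (fun z => kr Λ M t v z * conj (kr Λ M t' v' z)) z := by
    intro z
    unfold ps
    by_cases hz : z ∈ Set.Ioc (M + v) (Real.exp Λ * M + v)
    · by_cases hz' : z ∈ Set.Ioc (M + v') (Real.exp Λ * M + v')
      · rw [Set.indicator_of_mem hz, Set.indicator_of_mem hz', Set.indicator_of_mem]
        exact ⟨max_lt hz.1 hz'.1, le_min hz.2 hz'.2⟩
      · rw [Set.indicator_of_notMem hz', map_zero, mul_zero, Set.indicator_of_notMem]
        intro h
        exact hz' ⟨(le_max_right _ _).trans_lt h.1, h.2.trans (min_le_right _ _)⟩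
    · rw [Set.indicator_of_notMem hz, zero_mul, Set.indicator_of_notMem]
      intro h
      exact hz ⟨(le_max_left _ _).trans_lt h.1, h.2.trans (min_le_left _ _)⟩
  simp only [h1]
  rw [setIntegral_indicator measurableSet_Ioc, Set.inter_eq_right.2]
  swap
  · intro z hz
    exact ⟨lt_of_le_of_lt ((by linarith : M ≤ M + v).trans (le_max_left _ _)) hz.1,
      (hz.2.trans (min_le_left _ _)).trans (by linarith)⟩
  rcases lt_or_ge (min (Real.exp Λ * M + v) (Real.exp Λ * M + v')) (max (M + v) (M + v')) with hlt | hle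
  · rw [Set.Ioc_eq_empty (not_lt.2 hlt.le), Measure.restrict_empty, integral_zero_measure, norm_zero]
    exact hrhs
  · rw [← intervalIntegral.integral_of_le hle]
    obtain ⟨h, hh⟩ : ∃ h : ℝ, h = v - v' := ⟨_, rfl⟩
    obtain ⟨α, hα⟩ : ∃ α : ℝ, α = max (M + v) (M + v') - v := ⟨_, rfl⟩
    obtain ⟨β, hβ⟩ : ∃ β : ℝ, β = min (Real.exp Λ * M + v) (Real.exp Λ * M + v') - v := ⟨_, rfl⟩
    have e1 : ∫ z in max (M + v) (M + v')..min (Real.exp Λ * M + v) (Real.exp Λ * M + v'),
        kr Λ M t v z * conj (kr Λ M t' v' z) =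
        ∫ r in α..β, kr Λ M t v (r + v) * conj (kr Λ M t' v' (r + v)) := by
      rw [intervalIntegral.integral_comp_add_right (fun z => kr Λ M t v z * conj (kr Λ M t' v' z)), hα, hβ]
      congr 1 <;> ring
    have a1 : M ≤ α := by
      rw [hα]; linarith [le_max_left (M + v) (M + v')]
    have a2 : M ≤ α + h := by
      rw [hα, hh]; linarith [le_max_right (M + v) (M + v')]
    have b1 : β ≤ Real.exp Λ * M := by
      rw [hβ]; linarith [min_le_left (Real.exp Λ * M + v) (Real.exp Λ * M + v')]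
    have b2 : β + h ≤ Real.exp Λ * M := by
      rw [hβ, hh]; linarith [min_le_right (Real.exp Λ * M + v) (Real.exp Λ * M + v')]
    have ab : α ≤ β := by rw [hα, hβ]; linarith
    have e2 : ∫ r in α..β, kr Λ M t v (r + v) * conj (kr Λ M t' v' (r + v)) =
        ∫ r in α..β, (((1 / Λ ^ 2 : ℝ)) : ℂ) * Complex.exp ((((t - t') * Real.log M : ℝ) : ℂ) * Complex.I) *
          (((1 / (r * (r + h)) : ℝ) : ℂ) *
          Complex.exp (((-t * Real.log r + t' * Real.log (r + h) : ℝ) : ℂ) * Complex.I)) := by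
      refine intervalIntegral.integral_congr fun r hr => ?_
      rw [Set.uIcc_of_le ab] at hr
      have r0 : 0 < r := by linarith [hr.1]
      have r1 : 0 < r + h := by linarith [hr.1]
      unfold kr
      have s1 : r + v - v = r := by ring
      have s2 : r + v - v' = r + h := by rw [hh]; ring
      rw [s1, s2, map_mul, Complex.conj_ofReal, ← Complex.exp_conj, map_mul, Complex.conj_I,
        Complex.conj_ofReal, Real.log_div r0.ne' hM0.ne', Real.log_div r1.ne' hM0.ne']
      have s3 : (((1 / (Λ * r) : ℝ)) : ℂ) * Complex.exp (((-(t * (Real.log r - Real.log M)) : ℝ) : ℂ) * Complex.I) *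
          ((((1 / (Λ * (r + h)) : ℝ)) : ℂ) *
            Complex.exp (((-(t' * (Real.log (r + h) - Real.log M)) : ℝ) : ℂ) * -Complex.I)) =
          ((((1 / (Λ * r) : ℝ)) : ℂ) * (((1 / (Λ * (r + h)) : ℝ)) : ℂ)) *
          (Complex.exp (((-(t * (Real.log r - Real.log M)) : ℝ) : ℂ) * Complex.I) *
            Complex.exp (((-(t' * (Real.log (r + h) - Real.log M)) : ℝ) : ℂ) * -Complex.I)) := by ring
      have s4 : (((1 / Λ ^ 2 : ℝ)) : ℂ) * Complex.exp ((((t - t') * Real.log M : ℝ) : ℂ) * Complex.I) *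
          (((1 / (r * (r + h)) : ℝ) : ℂ) *
          Complex.exp (((-t * Real.log r + t' * Real.log (r + h) : ℝ) : ℂ) * Complex.I)) =
          ((((1 / Λ ^ 2 : ℝ)) : ℂ) * ((1 / (r * (r + h)) : ℝ) : ℂ)) *
          (Complex.exp ((((t - t') * Real.log M : ℝ) : ℂ) * Complex.I) *
          Complex.exp (((-t * Real.log r + t' * Real.log (r + h) : ℝ) : ℂ) * Complex.I)) := by ring
      rw [s3, s4, ← Complex.exp_add, ← Complex.exp_add]
      congr 1
      · rw [← Complex.ofReal_mul, ← Complex.ofReal_mul]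
        congr 1
        have : Λ ≠ 0 := by linarith
        field_simp
      · congr 1
        push_cast
        ring
    rw [e1, e2, intervalIntegral.integral_const_mul, norm_mul, norm_mul, Complex.norm_exp_ofReal_mul_I, mul_one,
      Complex.norm_real, Real.norm_of_nonneg (by positivity)]
    have hne' : h ≠ 0 := by rw [hh]; exact sub_ne_zero.2 hne
    have k := hosc M T h t t' α β hM0 hT ht ht' hne' a1 ab b1 a2 b2
    rw [← hh]
    have hL : 1 / Λ ^ 2 ≤ 1 := by
      rw [div_le_one (by positivity)]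
      nlinarith
    calc 1 / Λ ^ 2 * _ ≤ 1 * (C / Real.sqrt (M * T * |h|)) :=
          mul_le_mul hL k (norm_nonneg _) zero_le_one
      _ = _ := one_mul _

/-- the norms of the kernels -/
theorem diag {Λ M v V t : ℝ} (hΛ : 1 ≤ Λ) (hM : 1 ≤ M) (hv : 0 ≤ v) (hV : v ≤ V) :
    ‖∫ z, ps Λ M t v z * conj (ps Λ M t v z) ∂(volume.restrict (Set.Ioc M (Real.exp Λ * M + V)))‖ ≤
      Real.exp Λ / M := by
  have hM0 : 0 < M := by linarith
  have hb : 1 ≤ Real.exp Λ := Real.one_le_exp (by linarith)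
  have h1 : ∀ z, ps Λ M t v z * conj (ps Λ M t v z) =
      (Set.Ioc (M + v) (Real.exp Λ * M + v)).indicator
        (fun z => kr Λ M t v z * conj (kr Λ M t v z)) z := by
    intro z
    unfold ps
    by_cases hz : z ∈ Set.Ioc (M + v) (Real.exp Λ * M + v)
    · rw [Set.indicator_of_mem hz, Set.indicator_of_mem hz]
    · rw [Set.indicator_of_notMem hz, Set.indicator_of_notMem hz, zero_mul]
  simp only [h1]
  rw [setIntegral_indicator measurableSet_Ioc, Set.inter_eq_right.2]
  swap
  · intro z hz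
    exact ⟨by linarith [hz.1], by linarith [hz.2]⟩
  have h2 := norm_setIntegral_le_of_norm_le_const (μ := volume) (s := Set.Ioc (M + v) (Real.exp Λ * M + v))
    (f := fun z => kr Λ M t v z * conj (kr Λ M t v z)) (C := 1 / M * (1 / M)) (by
      rw [Real.volume_Ioc]; exact ENNReal.ofReal_lt_top) (by
      intro z hz
      rw [norm_mul, RCLike.norm_conj]
      exact mul_le_mul (kr_norm hΛ hM0 hz.1) (kr_norm hΛ hM0 hz.1) (norm_nonneg _) (by positivity))
  refine h2.trans ?_
  rw [Real.volume_real_Ioc_of_le (by nlinarith)]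
  have h3 : 1 / M * (1 / M) * (Real.exp Λ * M + v - (M + v)) = (Real.exp Λ - 1) / M := by
    field_simp
    ring
  rw [h3]
  exact div_le_div_of_nonneg_right (by linarith) hM0.le

end Pool.Agent.Y574.MC
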