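import Pool.Agent.Y574.MC.Ker

/-!
# MC-SUP (helper574): coefficients of high order of a stationary family
-/

set_option autoImplicit false

namespace Pool.Agent.Y574.MC

open MeasureTheory Finset ComplexConjugate Pool.Agent.Y957.MC

universe u

/-- the bound for every point -/
theorem det (hosc : S_OSC) {Λ : ℝ} (hΛ : 1 ≤ Λ) : ∃ C : ℝ, 0 < C ∧ ∀ (M T₀ : ℝ) (k : ℕ → ℤ) (f : ℝ → ℂ) (V : ℕ),
    1 ≤ M → 1 ≤ T₀ → (∀ v, T₀ ≤ |(k v : ℝ)|) → Measurable f → (∀ z, ‖f z‖ ≤ 1) → M ≤ V → (V : ℝ) ≤ 2 * M →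
    ∑ v ∈ range V, ‖∫ z in Set.Ioc (M + (v : ℝ)) (Real.exp Λ * M + v),
      f z * kr Λ M (2 * Real.pi * k v / Λ) v z‖ ^ 2 ≤ C * (1 / Real.sqrt T₀ + 1 / M) * V := by
  obtain ⟨C, hC, hinn⟩ := inn hosc hΛ
  have hb : 1 ≤ Real.exp Λ := Real.one_le_exp (by linarith)
  have hΛ0 : 0 < Λ := by linarith
  refine ⟨(Real.exp Λ + 1) * (Real.exp Λ + 8 * C * Λ), by positivity, ?_⟩
  intro M T₀ k f V hM hT hk hf hf1 hMV hV2
  have hM0 : 0 < M := by linarith
  have hT0 : 0 < T₀ := by linarith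
  obtain ⟨T, hTdef⟩ : ∃ T : ℝ, T = T₀ / Λ := ⟨_, rfl⟩
  have hTp : 0 < T := by rw [hTdef]; positivity
  have htk : ∀ v, T ≤ |2 * Real.pi * k v / Λ| := by
    intro v
    rw [abs_div, abs_of_pos hΛ0, hTdef]
    apply div_le_div_of_nonneg_right _ hΛ0.le
    rw [abs_mul, abs_of_pos (by positivity)]
    have h1 := hk v
    have h2 := Real.pi_gt_three
    have h3 : 0 ≤ |(k v : ℝ)| := abs_nonneg _
    nlinarith
  obtain ⟨c1, hc1⟩ : ∃ c1 : ℝ, c1 = C / Real.sqrt (M * T) := ⟨_, rfl⟩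
  have hc10 : 0 ≤ c1 := by rw [hc1]; positivity
  obtain ⟨R, hR⟩ : ∃ R : ℝ, R = Real.exp Λ / M + 4 * c1 * Real.sqrt V := ⟨_, rfl⟩
  have hR0 : 0 < R := by rw [hR]; positivity
  have hal1 := hal (volume.restrict (Set.Ioc M (Real.exp Λ * M + V))) V f hf hf1
    (fun v => ps Λ M (2 * Real.pi * k v / Λ) v) (fun v => ps_meas _ _ _ _) (1 / M)
    (fun v z => ps_norm hΛ hM0 z)
    (fun v v' => if v = v' then Real.exp Λ / M else c1 / Real.sqrt |(v : ℝ) - v'|) (by
      intro v hv v' hv'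
      rw [Finset.mem_range] at hv hv'
      have hvV : (v : ℝ) ≤ V := by exact_mod_cast hv.le
      have hvV' : (v' : ℝ) ≤ V := by exact_mod_cast hv'.le
      by_cases h : v = v'
      · subst h
        rw [if_pos rfl]
        exact diag hΛ hM (Nat.cast_nonneg _) hvV
      · rw [if_neg h]
        have h1 := hinn M T v v' V (2 * Real.pi * k v / Λ) (2 * Real.pi * k v' / Λ) hM hTp (htk v) (htk v')
          (Nat.cast_nonneg _) (Nat.cast_nonneg _) hvV hvV' (by exact_mod_cast h)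
        rw [Real.sqrt_mul (by positivity)] at h1
        rw [hc1, div_div]
        exact h1) (by
      intro v v'
      by_cases h : v = v'
      · subst h; rfl
      · rw [if_neg h, if_neg (Ne.symm h), abs_sub_comm]) R hR0 (by
      intro v hv
      rw [hR]
      exact row_sum V v (Finset.mem_range.1 hv) _ c1 hc10)
  have e1 : ∑ v ∈ range V, ‖∫ z in Set.Ioc (M + (v : ℝ)) (Real.exp Λ * M + v),
      f z * kr Λ M (2 * Real.pi * k v / Λ) v z‖ ^ 2 =
      ∑ v ∈ range V, ‖∫ z, f z * ps Λ M (2 * Real.pi * k v / Λ) v z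
        ∂(volume.restrict (Set.Ioc M (Real.exp Λ * M + V)))‖ ^ 2 := by
    refine Finset.sum_congr rfl fun v hv => ?_
    rw [Finset.mem_range] at hv
    rw [cv2 (V := (V : ℝ)) (Nat.cast_nonneg v) (by exact_mod_cast hv.le)]
  rw [e1]
  refine hal1.trans ?_
  have hV0 : (0 : ℝ) ≤ V := Nat.cast_nonneg V
  have e2 : (volume.restrict (Set.Ioc M (Real.exp Λ * M + V))).real Set.univ ≤ (Real.exp Λ + 1) * V := by
    rw [measureReal_restrict_apply_univ, Real.volume_real_Ioc_of_le (by nlinarith)]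
    nlinarith
  have hs2 : Real.sqrt V ≤ Real.sqrt 2 * Real.sqrt M := by
    rw [← Real.sqrt_mul (by norm_num)]
    exact Real.sqrt_le_sqrt hV2
  have hsM : 0 < Real.sqrt M := Real.sqrt_pos.2 hM0
  have hsT : 0 < Real.sqrt T₀ := Real.sqrt_pos.2 hT0
  have hsΛ : 0 < Real.sqrt Λ := Real.sqrt_pos.2 hΛ0
  have e3 : c1 * Real.sqrt V ≤ 2 * C * Λ / Real.sqrt T₀ := by
    have h1 : c1 = C * Real.sqrt Λ / (Real.sqrt M * Real.sqrt T₀) := by
      rw [hc1, hTdef, Real.sqrt_mul hM0.le, Real.sqrt_div hT0.le]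
      field_simp
    have h2 : Real.sqrt 2 ≤ 2 := by
      rw [Real.sqrt_le_left (by norm_num)]; norm_num
    have h3 : Real.sqrt Λ ≤ Λ := by
      rw [Real.sqrt_le_left hΛ0.le]
      nlinarith
    calc c1 * Real.sqrt V ≤ c1 * (Real.sqrt 2 * Real.sqrt M) := mul_le_mul_of_nonneg_left hs2 hc10
      _ = C * Real.sqrt Λ * Real.sqrt 2 / Real.sqrt T₀ := by
          rw [h1]; field_simp
      _ ≤ 2 * C * Λ / Real.sqrt T₀ := by
          apply div_le_div_of_nonneg_right _ hsT.le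
          have h4 : Real.sqrt Λ * Real.sqrt 2 ≤ Λ * 2 := mul_le_mul h3 h2 (Real.sqrt_nonneg _) hΛ0.le
          nlinarith
  have e4 : R ≤ (Real.exp Λ + 8 * C * Λ) * (1 / Real.sqrt T₀ + 1 / M) := by
    have h1 : 4 * c1 * Real.sqrt V ≤ 8 * C * Λ * (1 / Real.sqrt T₀) := by
      have h2 : 2 * C * Λ / Real.sqrt T₀ = 2 * C * Λ * (1 / Real.sqrt T₀) := by ring
      rw [h2] at e3
      linarith
    have h3 : 0 ≤ Real.exp Λ * (1 / Real.sqrt T₀) := by positivity
    have h4 : 0 ≤ 8 * C * Λ * (1 / M) := by positivity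
    rw [hR]
    have h5 : Real.exp Λ / M = Real.exp Λ * (1 / M) := by ring
    rw [h5]
    linarith
  calc R * (volume.restrict (Set.Ioc M (Real.exp Λ * M + V))).real Set.univ
      ≤ R * ((Real.exp Λ + 1) * V) := mul_le_mul_of_nonneg_left e2 hR0.le
    _ ≤ ((Real.exp Λ + 8 * C * Λ) * (1 / Real.sqrt T₀ + 1 / M)) * ((Real.exp Λ + 1) * V) :=
        mul_le_mul_of_nonneg_right e4 (by positivity)
    _ = _ := by ring

theorem iter {X : Type u} [MeasurableSpace X] {μ : Measure X} {T : X → X} {F : X → ℝ → ℂ} (h : Stat μ T F)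
    (v : ℕ) : ∀ x w, 0 ≤ w → F (T^[v] x) w = F x (w + v) := by
  induction v with
  | zero => intro x w _; simp
  | succ v ih =>
    intro x w hw
    rw [Function.iterate_succ_apply, ih (T x) w hw, h.shift x _ (by positivity)]
    push_cast
    congr 1
    ring

theorem cf_norm {Λ : ℝ} (hΛ : 1 ≤ Λ) {F : ℝ → ℂ} (hF : ∀ v, ‖F v‖ ≤ 1) (M : ℝ) (k : ℤ) :
    ‖cf Λ F M k‖ ≤ 1 := by
  unfold cf
  have hΛ0 : 0 < Λ := by linarith
  have h1 : ‖∫ s in (0 : ℝ)..Λ, F (M * Real.exp s) *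
      Complex.exp (-((2 * Real.pi * k / Λ * s : ℝ) : ℂ) * Complex.I)‖ ≤ 1 * |Λ - 0| := by
    apply intervalIntegral.norm_integral_le_of_norm_le_const
    intro s _
    rw [norm_mul, ← Complex.ofReal_neg, Complex.norm_exp_ofReal_mul_I, mul_one]
    exact hF _
  rw [norm_mul, norm_div, norm_one, Complex.norm_real, Real.norm_of_nonneg hΛ0.le]
  rw [sub_zero, abs_of_pos hΛ0, one_mul] at h1
  calc 1 / Λ * _ ≤ 1 / Λ * Λ := mul_le_mul_of_nonneg_left h1 (by positivity)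
    _ = 1 := by field_simp

theorem cf_meas {X : Type u} [MeasurableSpace X] {F : X → ℝ → ℂ}
    (hF : Measurable (fun p : X × ℝ => F p.1 p.2)) {Λ : ℝ} (hΛ : 0 ≤ Λ) (M : ℝ) (k : ℤ) :
    Measurable (fun x => cf Λ (F x) M k) := by
  unfold cf
  simp only [intervalIntegral.integral_of_le hΛ]
  refine Measurable.const_mul ?_ _
  have h1 : Measurable (fun p : X × ℝ => F p.1 (M * Real.exp p.2) *
      Complex.exp (-((2 * Real.pi * k / Λ * p.2 : ℝ) : ℂ) * Complex.I)) := by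
    refine Measurable.mul ?_ (by fun_prop)
    exact hF.comp (by fun_prop : Measurable (fun p : X × ℝ => (p.1, M * Real.exp p.2)))
  exact (h1.stronglyMeasurable.integral_prod_right (ν := volume.restrict (Set.Ioc 0 Λ))).measurable

/-- SUP -/
theorem sup (h : S_OSC) : S_SUP.{u} := by
  intro Λ hΛ
  obtain ⟨C, hC, hdet⟩ := det h hΛ
  refine ⟨C, hC, ?_⟩
  intro X _ μ _ T F hst M T₀ κ hM hT hκ hκT
  have hΛ0 : 0 < Λ := by linarith
  have hM0 : 0 < M := by linarith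
  obtain ⟨Φ, hΦ⟩ : ∃ Φ : X → ℝ, ∀ x, Φ x = ‖cf Λ (F x) M (κ x)‖ ^ 2 := ⟨_, fun _ => rfl⟩
  have hΦm : Measurable Φ := by
    have h0 : ∀ k : ℤ, Measurable (fun x => cf Λ (F x) M k) := fun k => cf_meas (F := F) hst.meas hΛ0.le M k
    have h1 : Measurable (fun p : X × ℤ => cf Λ (F p.1) M p.2) :=
      measurable_from_prod_countable_left h0
    have hp : Measurable (fun x : X => (x, κ x)) := measurable_id.prodMk hκ
    have h2' := h1.comp hp
    have h2 : Measurable (fun x => cf Λ (F x) M (κ x)) := h2'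
    have h3 : Φ = fun x => ‖cf Λ (F x) M (κ x)‖ ^ 2 := funext hΦ
    rw [h3]
    exact h2.norm.pow_const 2
  have hΦ0 : ∀ x, 0 ≤ Φ x := fun x => by rw [hΦ]; positivity
  have hΦ1 : ∀ x, Φ x ≤ 1 := fun x => by
    rw [hΦ]
    exact pow_le_one₀ (norm_nonneg _) (cf_norm hΛ (hst.bdd x) M (κ x))
  have hΦi : ∀ g : X → X, Measurable g → Integrable (fun x => Φ (g x)) μ := fun g hg =>
    Integrable.of_bound (hΦm.comp hg).aestronglyMeasurable 1 (Filter.Eventually.of_forall fun x => by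
      rw [Real.norm_of_nonneg (hΦ0 _)]; exact hΦ1 _)
  obtain ⟨V, hV⟩ : ∃ V : ℕ, V = ⌈M⌉₊ := ⟨_, rfl⟩
  have hMV : M ≤ V := by rw [hV]; exact Nat.le_ceil M
  have hV2 : (V : ℝ) ≤ 2 * M := by
    have := Nat.ceil_lt_add_one hM0.le
    rw [← hV] at this
    linarith
  have hV0 : (0 : ℝ) < V := by linarith
  have e1 : ∀ v : ℕ, ∫ x, Φ (T^[v] x) ∂μ = ∫ x, Φ x ∂μ := by
    intro v
    have h1 := hst.mp.iterate v
    conv_rhs => rw [← h1.map_eq]
    rw [integral_map h1.measurable.aemeasurable hΦm.aestronglyMeasurable]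
  have e2 : ∀ x, ∑ v ∈ range V, Φ (T^[v] x) ≤ C * (1 / Real.sqrt T₀ + 1 / M) * V := by
    intro x
    have h1 := hdet M T₀ (fun v => κ (T^[v] x)) (F x) V hM hT (fun v => hκT _)
      (hst.meas.comp measurable_prodMk_left) (hst.bdd x) hMV hV2
    refine le_trans (le_of_eq (Finset.sum_congr rfl fun v _ => ?_)) h1
    rw [hΦ, ← cv hΛ0 hM0]
    congr 2
    unfold cf
    congr 1
    refine intervalIntegral.integral_congr fun s _ => ?_
    rw [iter hst v x _ (by positivity)]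
  have e3 : (V : ℝ) * ∫ x, Φ x ∂μ ≤ C * (1 / Real.sqrt T₀ + 1 / M) * V := by
    calc (V : ℝ) * ∫ x, Φ x ∂μ = ∑ v ∈ range V, ∫ x, Φ (T^[v] x) ∂μ := by
          simp only [e1, Finset.sum_const, Finset.card_range, nsmul_eq_mul]
      _ = ∫ x, ∑ v ∈ range V, Φ (T^[v] x) ∂μ :=
          (integral_finsetSum _ fun v _ => hΦi _ (hst.mp.iterate v).measurable).symm
      _ ≤ ∫ _x, C * (1 / Real.sqrt T₀ + 1 / M) * V ∂μ :=
          integral_mono (integrable_finsetSum _ fun v _ => hΦi _ (hst.mp.iterate v).measurable)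
            (integrable_const _) e2
      _ = C * (1 / Real.sqrt T₀ + 1 / M) * V := by simp
  have e4 : ∫ x, ‖cf Λ (F x) M (κ x)‖ ^ 2 ∂μ = ∫ x, Φ x ∂μ := by
    simp only [hΦ]
  rw [e4]
  rw [mul_comm] at e3
  exact le_of_mul_le_mul_right e3 hV0

end Pool.Agent.Y574.MC
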